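import Mathlib
import Pool.Agent.W522.U.Defs

/-!
# The defects of a quadratic unipotent element
-/

namespace Pool.Agent.Y126.Toric

open Module Pool.Agent.W522.U

variable {K : Type*} [Field K] {X : Type*} [AddCommGroup X] [Module K X]
  {Γ : Type*} [Group Γ] (R : Representation K Γ X)

/-- The number `d` is a *defect* of `γ` on `U`: the rank of `γ - 1` on `U`, or the algebraic
multiplicity on `U` of a nonzero eigenvalue of `(γ - 1) (γ' - 1)`, for an element `γ'` of the group
with `(γ' - 1) ^ 2 = 0`. -/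
def IsDefect (U : Submodule K X) (γ : Γ) (d : ℕ) : Prop :=
  d = finrank K (U.map (R γ - 1)) ∨
    ∃ γ' : Γ, (R γ' - 1) * (R γ' - 1) = 0 ∧ ∃ a : K, a ≠ 0 ∧
      d = finrank K (Module.End.maxGenEigenspace ((R γ - 1) * (R γ' - 1)) a ⊓ U : Submodule K X)

end Pool.Agent.Y126.Toric
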