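import Mathlib
import Pool.Agent.Y126.Toric.Glob

/-!
# Square-zero elements of rank one on a strongly irreducible subspace
-/

set_option linter.unusedSectionVars false

namespace Pool.Agent.Y126.Toric

open Module Pool.Agent.H204R3.SP Pool.Agent.H204R3.GP Pool.Agent.W522.U Pool.Agent.W529.Ta
open Pool.Agent.W528.Odd Pool.Agent.Y126.OT Pool.Agent.TH118.CR
open Pool.Agent.W528.Tor (AltDual)

noncomputable section

variable {K : Type} [Field K] [CharZero K] [IsAlgClosed K] {X : Type} [AddCommGroup X] [Module K X]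
  [FiniteDimensional K X] {Γ : Type} [Group Γ] {R : Representation K Γ X} {χ : Γ →* K}
  (ω : X →ₗ[K] X →ₗ[K] K) (hnd : ∀ u, (∀ v, ω u v = 0) → u = 0)
  (hωR : ∀ g u v, ω (R g u) (R g v) = χ g * ω u v) (hss : HasProj R) {U : Submodule K X}
  (hU : SI R U)

include hnd hωR hss hU in
/-- From a rank one element on `U` to a global one. -/
theorem one_of_rank_one {N : Module.End K X} (hN : N ∈ lieT R χ) (hN2 : N * N = 0)
    (hN0 : U.map N ≠ ⊥) {n : Module.End K U} (hn : n ∈ resL R χ U) (hn2 : n * n = 0)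
    (hr : rk n = 1) : ∃ e ∈ lieT R χ, e * e = 0 ∧ finrank K (U.map e) = 1 := by
  obtain ⟨Δ, hΔ, hUΔ⟩ := hU.2.1
  obtain ⟨e, he, he2, Y, hY, hYe, hY2, hY0, hext⟩ := exists_ext ω hnd hωR hss hU hN hN2 hN0
  refine ⟨e, he, he2, ?_⟩
  rw [← rk_res hYe]
  exact extremal_rank_one' (resR R Δ U hUΔ) (sIrr_res hU Δ hΔ hUΔ) resL_br (resL_conj Δ hUΔ) hn hn2
    hr hY hY2 hY0 hext

include hnd hωR hss hU in
/-- **Defects without common factor.** -/
theorem one_of_gcd {γ : Γ} (hγ : (R γ - 1) * (R γ - 1) = 0)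
    (hd : ∀ p : ℕ, p.Prime → ∃ d, IsDefect R U γ d ∧ ¬ p ∣ d) :
    ∃ e ∈ lieT R χ, e * e = 0 ∧ finrank K (U.map e) = 1 := by
  obtain ⟨Δ, hΔ, hUΔ⟩ := id hU.2.1
  have hN0 : U.map (R γ - 1) ≠ ⊥ := by
    intro h
    obtain ⟨d, hd, h2⟩ := hd 2 Nat.prime_two
    apply h2
    rcases hd with rfl | ⟨γ', hγ', a, ha, rfl⟩
    · rw [h, finrank_bot]
      exact dvd_zero 2
    · have h3 : (Module.End.maxGenEigenspace ((R γ - 1) * (R γ' - 1)) a ⊓ U : Submodule K X) = ⊥ := by
        rw [eq_bot_iff]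
        rintro w ⟨hw, hwU⟩
        by_cases hne : ∀ x, (R γ' - 1) x = 0
        · have h5 : (R γ - 1) * (R γ' - 1) = 0 := by
            refine LinearMap.ext fun v => ?_
            rw [Module.End.mul_apply, hne, map_zero]
            rfl
          obtain ⟨k, hk⟩ := (Module.End.mem_maxGenEigenspace _ _ _).1 hw
          rw [h5, zero_sub, ← neg_smul, smul_pow, one_pow, LinearMap.smul_apply,
            Module.End.one_apply] at hk
          exact (smul_eq_zero.1 hk).resolve_left (pow_ne_zero _ (neg_ne_zero.2 ha))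
        push Not at hne
        obtain ⟨x, hx⟩ := hne
        have hN1 : R γ' - 1 ∈ lieT R χ :=
          unip_lieT R χ γ' hγ' (unip_chi ω hnd hωR γ' hγ' hx)
        have hst := lieT_stable ω hnd hωR hss hU.2.1 hN1
        have h4 : ∀ v ∈ U, ((R γ - 1) * (R γ' - 1)) v = 0 := by
          intro v hv
          rw [Module.End.mul_apply]
          have h6 : (R γ - 1) ((R γ' - 1) v) ∈ U.map (R γ - 1) :=
            Submodule.mem_map_of_mem (hst v hv)
          rwa [h, Submodule.mem_bot] at h6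
        obtain ⟨k, hk⟩ := (Module.End.mem_maxGenEigenspace _ _ _).1 hw
        have h7 : ∀ k : ℕ, (((R γ - 1) * (R γ' - 1) - a • (1 : Module.End K X)) ^ k) w =
            ((-a) ^ k) • w := by
          intro k
          induction k with
          | zero => rw [pow_zero, pow_zero, one_smul]; rfl
          | succ k ih =>
            rw [pow_succ', Module.End.mul_apply, ih, map_smul, LinearMap.sub_apply, h4 w hwU,
              LinearMap.smul_apply, Module.End.one_apply, zero_sub, ← neg_smul, smul_smul,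
              pow_succ]
        rw [h7] at hk
        exact (smul_eq_zero.1 hk).resolve_left (pow_ne_zero _ (neg_ne_zero.2 ha))
      rw [h3, finrank_bot]
      exact dvd_zero 2
  obtain ⟨x, hx, hx0⟩ := exists_ne hN0
  have hN : R γ - 1 ∈ lieT R χ := unip_lieT R χ γ hγ (unip_chi ω hnd hωR γ hγ hx0)
  have hst := lieT_stable ω hnd hωR hss hU.2.1 hN
  obtain ⟨N, hNd⟩ : ∃ N : Module.End K U, N = (R γ - 1).restrict hst := ⟨_, rfl⟩
  have hNx : ∀ u : U, ((N u : U) : X) = (R γ - 1) u := fun u => by rw [hNd]; rfl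
  have hN2 : N * N = 0 := by
    have h3 := sq_res hNx 0 (by rw [hγ, zero_smul])
    rw [h3, zero_smul]
  obtain ⟨e, he, he2, Y, hY, hYe, hY2, hY0, hext⟩ := exists_ext ω hnd hωR hss hU hN hγ hN0
  refine ⟨e, he, he2, ?_⟩
  rw [← rk_res hYe]
  refine extremal_rank_one (resR R Δ U hUΔ) (sIrr_res hU Δ hΔ hUΔ) resL_br (resL_conj Δ hUΔ)
    (N := N) ⟨_, hN, hNx⟩ hN2 ?_ hY hY2 hY0 hext
  intro p hp
  obtain ⟨d, hd, hpd⟩ := hd p hp
  exact ⟨d, defect_res ω hnd hωR hss hU hNx hd (fun h => hpd (h ▸ dvd_zero p)), hpd⟩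

include hnd hωR hss hU in
/-- **Symplectic subspaces: an odd defect or a defect two.** -/
theorem one_of_alt (halt : AltDual R χ U) {γ : Γ} (hγ : (R γ - 1) * (R γ - 1) = 0) {d : ℕ}
    (hd : IsDefect R U γ d) (hd2 : d = 2 ∨ (Odd d ∧ WeakHodgeGenerate R χ)) :
    ∃ e ∈ lieT R χ, e * e = 0 ∧ finrank K (U.map e) = 1 := by
  obtain ⟨Δ₁, hΔ₁, hUΔ₁⟩ := id hU.2.1
  obtain ⟨Δ₂, hΔ₂, B, hB0, hBalt, hB⟩ := halt
  obtain ⟨Δ, hΔd⟩ : ∃ Δ, Δ = Δ₁ ⊓ Δ₂ := ⟨_, rfl⟩
  have hΔ : Δ.FiniteIndex := by rw [hΔd]; infer_instance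
  have hUΔ : ∀ g ∈ Δ, ∀ u ∈ U, R g u ∈ U := fun g hg => hUΔ₁ g (by rw [hΔd] at hg; exact hg.1)
  have hBΔ : ∀ g ∈ Δ, ∀ u ∈ U, ∀ v ∈ U, B (R g u) (R g v) = χ g * B u v :=
    fun g hg => hB g (by rw [hΔd] at hg; exact hg.2)
  have hd0 : d ≠ 0 := by
    rintro rfl
    rcases hd2 with h | ⟨h, -⟩
    · omega
    · exact absurd h (by decide)
  have hN0 : U.map (R γ - 1) ≠ ⊥ := by
    intro h
    apply hd0
    rcases hd with rfl | ⟨γ', hγ', a, ha, rfl⟩
    · rw [h, finrank_bot]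
    · rw [Submodule.finrank_eq_zero, eq_bot_iff]
      rintro w ⟨hw, hwU⟩
      have h4 : ∀ v ∈ U, ((R γ - 1) * (R γ' - 1)) v = 0 := by
        intro v hv
        rw [Module.End.mul_apply]
        by_cases hne : (R γ' - 1) v = 0
        · rw [hne, map_zero]
        have hN1 : R γ' - 1 ∈ lieT R χ :=
          unip_lieT R χ γ' hγ' (unip_chi ω hnd hωR γ' hγ' hne)
        have hst := lieT_stable ω hnd hωR hss hU.2.1 hN1
        have h6 : (R γ - 1) ((R γ' - 1) v) ∈ U.map (R γ - 1) :=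
          Submodule.mem_map_of_mem (hst v hv)
        rwa [h, Submodule.mem_bot] at h6
      obtain ⟨k, hk⟩ := (Module.End.mem_maxGenEigenspace _ _ _).1 hw
      have h7 : ∀ k : ℕ, (((R γ - 1) * (R γ' - 1) - a • (1 : Module.End K X)) ^ k) w =
          ((-a) ^ k) • w := by
        intro k
        induction k with
        | zero => rw [pow_zero, pow_zero, one_smul]; rfl
        | succ k ih =>
          rw [pow_succ', Module.End.mul_apply, ih, map_smul, LinearMap.sub_apply, h4 w hwU,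
            LinearMap.smul_apply, Module.End.one_apply, zero_sub, ← neg_smul, smul_smul,
            pow_succ]
      rw [h7] at hk
      exact (smul_eq_zero.1 hk).resolve_left (pow_ne_zero _ (neg_ne_zero.2 ha))
  obtain ⟨x, hx, hx0⟩ := exists_ne hN0
  have hN : R γ - 1 ∈ lieT R χ := unip_lieT R χ γ hγ (unip_chi ω hnd hωR γ hγ hx0)
  have hst := lieT_stable ω hnd hωR hss hU.2.1 hN
  obtain ⟨N, hNd⟩ : ∃ N : Module.End K U, N = (R γ - 1).restrict hst := ⟨_, rfl⟩
  have hNx : ∀ u : U, ((N u : U) : X) = (R γ - 1) u := fun u => by rw [hNd]; rfl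
  have hN2 : N * N = 0 := by
    have h3 := sq_res hNx 0 (by rw [hγ, zero_smul])
    rw [h3, zero_smul]
  obtain ⟨n, hn, hn2, hnd', -⟩ := defect_elt (resR R Δ U hUΔ) (sIrr_res hU Δ hΔ hUΔ) resL_br
    (resL_conj Δ hUΔ) (N := N) ⟨_, hN, hNx⟩ hN2 (defect_res ω hnd hωR hss hU hNx hd hd0)
  -- the form on `U`
  obtain ⟨om, hom⟩ : ∃ om : U →ₗ[K] U →ₗ[K] K, om = B.compl₁₂ U.subtype U.subtype := ⟨_, rfl⟩
  have hom' : ∀ u v : U, om u v = B u v := fun u v => by rw [hom]; rfl
  have halt' : ∀ v, om v v = 0 := fun v => by rw [hom']; exact hBalt v v.2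
  have hndl : ∀ u, (∀ v, om u v = 0) → u = 0 := by
    intro u hu
    apply Subtype.ext
    exact du_left hU hU.2.1 hΔ hB0 hBΔ u u.2 (fun v hv => by
      have := hu ⟨v, hv⟩
      rwa [hom'] at this)
  have hanti := alt_anti halt'
  have hndr : ∀ u, (∀ v, om v u = 0) → u = 0 := fun u hu => hndl u fun v => by
    rw [hanti, hu, neg_zero]
  have hsim : ∀ (g : Δ) u v, om (resR R Δ U hUΔ g u) (resR R Δ U hUΔ g v) =
      (χ.comp Δ.subtype) g * om u v := by
    intro g u v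
    rw [hom', hom']
    exact hBΔ g.1 g.2 u u.2 v v.2
  have hsp : ∀ Y ∈ resL R χ U, ∀ u w, om (Y u) w + om u (Y w) = 0 := by
    rintro Y ⟨y, hy, hYy⟩ u w
    rw [hom', hom', hYy, hYy]
    exact lieT_skew ω hnd hωR hss hU.2.1 hΔ B hBΔ hy u u.2 w w.2
  have hall : ∀ u v, SS om u v ∈ resL R χ U := by
    rcases hd2 with h2 | ⟨hodd, hP⟩
    · refine all_of_rank_two (resR R Δ U hUΔ) (χ.comp Δ.subtype) (sIrr_res hU Δ hΔ hUΔ) resL_br
        (resL_conj Δ hUΔ) om halt' hndr hsim hsp hn hn2 ?_ (by rw [hnd', h2])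
      intro h
      rw [h, rk_eq_zero.2 rfl] at hnd'
      exact hd0 hnd'.symm
    · obtain ⟨e, he, hr⟩ := exists_rank_one_odd halt' hndl Pool.Agent.W72.OT.Bound.main resL_br hsp
        (fun W hW => irr_weak ω hnd hωR hss hP hU Δ hΔ hUΔ W (by
          rintro Y ⟨x₀, hx₀, hxx, hYx⟩
          exact hW Y ⟨x₀, hx₀, hYx⟩ (sq_res hYx _ hxx))) hn hn2 (by rw [hnd']; exact hodd)
      exact all_of_rank_one (resR R Δ U hUΔ) (χ.comp Δ.subtype) (sIrr_res hU Δ hΔ hUΔ) resL_br
        (resL_conj Δ hUΔ) om halt' hndr hsim hsp he hr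
  obtain ⟨v, hv⟩ : ∃ v : U, v ≠ 0 := by
    refine ⟨⟨x, hx⟩, fun h => hx0 ?_⟩
    have h1 : x = 0 := congrArg Subtype.val h
    rw [h1, map_zero]
  obtain ⟨w, hw⟩ : ∃ w, om v w ≠ 0 := by
    by_contra hcon
    push Not at hcon
    exact hv (hndl v hcon)
  refine one_of_rank_one ω hnd hωR hss hU hN hγ hN0 (hall v v)
    (Pool.Agent.W528.Tor.SS_sq_zero om halt' (halt' v)) ?_
  have h1 : LinearMap.range (SS om v v) = Submodule.span K {v} := by
    apply le_antisymm
    · rintro _ ⟨u, rfl⟩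
      rw [SS_apply]
      exact Submodule.add_mem _ (Submodule.smul_mem _ _ (Submodule.mem_span_singleton_self v))
        (Submodule.smul_mem _ _ (Submodule.mem_span_singleton_self v))
    · rw [Submodule.span_singleton_le_iff_mem]
      refine ⟨(2 * om v w)⁻¹ • w, ?_⟩
      rw [map_smul, SS_apply, ← add_smul, smul_smul]
      have h2 : (2 * om v w)⁻¹ * (om v w + om v w) = 1 := by
        rw [← two_mul]
        exact inv_mul_cancel₀ (mul_ne_zero two_ne_zero hw)
      rw [h2, one_smul]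
  rw [rk, h1]
  exact finrank_span_singleton hv

/-- For every strongly irreducible subspace `U` of dimension at least two there is an element `γ` of
the group with `(γ - 1) ^ 2 = 0` such that the defects of `γ` on `U` have no common prime factor, or
`U` is self-dual with an alternating pairing, and one of the defects is two, or it is odd and the weak
Hodge elements generate. -/
def HasUnipotents (R : Representation K Γ X) (χ : Γ →* K) : Prop :=
  ∀ U, SI R U → 2 ≤ finrank K U → ∃ γ : Γ, (R γ - 1) * (R γ - 1) = 0 ∧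
    ((∀ p : ℕ, p.Prime → ∃ d, IsDefect R U γ d ∧ ¬ p ∣ d) ∨
      (AltDual R χ U ∧ ∃ d, IsDefect R U γ d ∧ (d = 2 ∨ (Odd d ∧ WeakHodgeGenerate R χ))))

include hnd hωR hss in
theorem main_det (hcu : HasUnipotents R χ) (hR2 : LinesNotSelfDual R χ) (hH : TwistFree R χ)
    {m : ℕ} (φ : MultilinearMap K (fun _ : Fin m × Fin 2 => X) K) (hφ : IsTate R χ m φ) :
    φ ∈ Submodule.span K (Pool.Agent.TH118.WC.DetProd R χ m) := by
  refine nil_det ω hnd hωR ?_ hss hR2 hH φ hφ
  intro U hU _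
  obtain ⟨γ, hγ, hd | ⟨halt, d, hd, hd2⟩⟩ := hcu U hU ‹_›
  · exact one_of_gcd ω hnd hωR hss hU hγ hd
  · exact one_of_alt ω hnd hωR hss hU halt hγ hd hd2

end

end Pool.Agent.Y126.Toric
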