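import Mathlib
import Pool.Agent.Y126.Toric.One
import Pool.Agent.Y126.OT.Pair2

/-!
# Square-zero elements of rank one from pairs of weak Hodge elements
-/

set_option linter.unusedSectionVars false

namespace Pool.Agent.Y126.Toric

open Module Pool.Agent.H204R3.SP Pool.Agent.H204R3.GP Pool.Agent.W522.U Pool.Agent.W529.Ta
open Pool.Agent.W528.Odd Pool.Agent.Y126.OT Pool.Agent.TH118.CR
open Pool.Agent.W528.Tor (AltDual)

noncomputable section

variable {K : Type} [Field K] [CharZero K] [IsAlgClosed K] {X : Type} [AddCommGroup X] [Module K X]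
  [FiniteDimensional K X] {Γ : Type} [Group Γ] {R : Representation K Γ X} {χ : Γ →* K}
  (ω : X →ₗ[K] X →ₗ[K] K) (hnd : ∀ u, (∀ v, ω u v = 0) → u = 0)
  (hωR : ∀ g u v, ω (R g u) (R g v) = χ g * ω u v) (hss : HasProj R) {U : Submodule K X}
  (hU : SI R U)

include hnd hωR hss hU in
/-- Symplectic subspaces with a square-zero element of rank two, odd rank or rank prime to the
dimension. -/
theorem one_of_alt_gen (halt : AltDual R χ U) {N : Module.End K X} (hN : N ∈ lieT R χ)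
    (hN2 : N * N = 0) (hN0 : U.map N ≠ ⊥) {n : Module.End K U} (hn : n ∈ resL R χ U)
    (hn2 : n * n = 0) {d : ℕ} (hnd' : rk n = d) (hd0 : d ≠ 0)
    (hd2 : d = 2 ∨ (Odd d ∧ WeakHodgeGenerate R χ) ∨ (Nat.Coprime d (finrank K U) ∧
      ∃ x ∈ lieT R χ, x * x = (1 / 4 : K) • 1)) :
    ∃ e ∈ lieT R χ, e * e = 0 ∧ finrank K (U.map e) = 1 := by
  obtain ⟨Δ₁, hΔ₁, hUΔ₁⟩ := id hU.2.1
  obtain ⟨Δ₂, hΔ₂, B, hB0, hBalt, hB⟩ := id halt
  obtain ⟨Δ, hΔd⟩ : ∃ Δ, Δ = Δ₁ ⊓ Δ₂ := ⟨_, rfl⟩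
  have hΔ : Δ.FiniteIndex := by rw [hΔd]; infer_instance
  have hUΔ : ∀ g ∈ Δ, ∀ u ∈ U, R g u ∈ U := fun g hg => hUΔ₁ g (by rw [hΔd] at hg; exact hg.1)
  have hBΔ : ∀ g ∈ Δ, ∀ u ∈ U, ∀ v ∈ U, B (R g u) (R g v) = χ g * B u v :=
    fun g hg => hB g (by rw [hΔd] at hg; exact hg.2)
  obtain ⟨x, hx, hx0⟩ := exists_ne hN0
  -- the form on `U`
  obtain ⟨om, hom⟩ : ∃ om : U →ₗ[K] U →ₗ[K] K, om = B.compl₁₂ U.subtype U.subtype := ⟨_, rfl⟩
  have hom' : ∀ u v : U, om u v = B u v := fun u v => by rw [hom]; rfl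
  have halt' : ∀ v, om v v = 0 := fun v => by rw [hom']; exact hBalt v v.2
  have hndl : ∀ u, (∀ v, om u v = 0) → u = 0 := by
    intro u hu
    apply Subtype.ext
    exact du_left hU hU.2.1 hΔ hB0 hBΔ u u.2 (fun v hv => by
      have := hu ⟨v, hv⟩
      rwa [hom'] at this)
  have hanti := alt_anti halt'
  have hndr : ∀ u, (∀ v, om v u = 0) → u = 0 := fun u hu => hndl u fun v => by
    rw [hanti, hu, neg_zero]
  have hsim : ∀ (g : Δ) u v, om (resR R Δ U hUΔ g u) (resR R Δ U hUΔ g v) =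
      (χ.comp Δ.subtype) g * om u v := by
    intro g u v
    rw [hom', hom']
    exact hBΔ g.1 g.2 u u.2 v v.2
  have hsp : ∀ Y ∈ resL R χ U, ∀ u w, om (Y u) w + om u (Y w) = 0 := by
    rintro Y ⟨y, hy, hYy⟩ u w
    rw [hom', hom', hYy, hYy]
    exact lieT_skew ω hnd hωR hss hU.2.1 hΔ B hBΔ hy u u.2 w w.2
  have hdim : 2 ≤ finrank K U := by
    obtain ⟨u, hu, v, hv, h0⟩ := hB0
    by_contra hcon
    have h1 : finrank K U ≤ 1 := by omega
    obtain ⟨w, hw⟩ := finrank_le_one_iff.1 h1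
    obtain ⟨a, ha⟩ := hw ⟨u, hu⟩
    obtain ⟨b, hb⟩ := hw ⟨v, hv⟩
    apply h0
    have h2 : u = a • (w : X) := congrArg Subtype.val ha.symm
    have h3 : v = b • (w : X) := congrArg Subtype.val hb.symm
    rw [h2, h3, map_smul, map_smul, LinearMap.smul_apply, hBalt _ w.2, smul_zero, smul_zero]
  have hall : ∀ u v, SS om u v ∈ resL R χ U := by
    rcases hd2 with h2 | ⟨hodd, hP⟩ | ⟨hcop, x₀, hx₀, hxx⟩
    · refine all_of_rank_two (resR R Δ U hUΔ) (χ.comp Δ.subtype) (sIrr_res hU Δ hΔ hUΔ) resL_br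
        (resL_conj Δ hUΔ) om halt' hndr hsim hsp hn hn2 ?_ (by rw [hnd', h2])
      intro h
      rw [h, rk_eq_zero.2 rfl] at hnd'
      exact hd0 hnd'.symm
    · obtain ⟨e, he, hr⟩ := exists_rank_one_odd halt' hndl Pool.Agent.W72.OT.Bound.main resL_br hsp
        (fun W hW => irr_weak ω hnd hωR hss hP hU Δ hΔ hUΔ W (by
          rintro Y ⟨x₀, hx₀, hxx, hYx⟩
          exact hW Y ⟨x₀, hx₀, hYx⟩ (sq_res hYx _ hxx))) hn hn2 (by rw [hnd']; exact hodd)
      exact all_of_rank_one (resR R Δ U hUΔ) (χ.comp Δ.subtype) (sIrr_res hU Δ hΔ hUΔ) resL_br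
        (resL_conj Δ hUΔ) om halt' hndr hsim hsp he hr
    · have hst := lieT_stable ω hnd hωR hss hU.2.1 hx₀
      obtain ⟨e, he, hr⟩ := exists_rank_one (resR R Δ U hUΔ) (sIrr_res hU Δ hΔ hUΔ) resL_br
        (resL_conj Δ hUΔ) om halt' hndl hsp hn hn2 (by rw [hnd']; exact hcop)
        (X := x₀.restrict hst) ⟨x₀, hx₀, fun u => rfl⟩ (sq_res (fun u => rfl) _ hxx) hdim
      exact all_of_rank_one (resR R Δ U hUΔ) (χ.comp Δ.subtype) (sIrr_res hU Δ hΔ hUΔ) resL_br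
        (resL_conj Δ hUΔ) om halt' hndr hsim hsp he hr
  obtain ⟨v, hv⟩ : ∃ v : U, v ≠ 0 := by
    refine ⟨⟨x, hx⟩, fun h => hx0 ?_⟩
    have h1 : x = 0 := congrArg Subtype.val h
    rw [h1, map_zero]
  obtain ⟨w, hw⟩ : ∃ w, om v w ≠ 0 := by
    by_contra hcon
    push Not at hcon
    exact hv (hndl v hcon)
  refine one_of_rank_one ω hnd hωR hss hU hN hN2 hN0 (hall v v)
    (Pool.Agent.W528.Tor.SS_sq_zero om halt' (halt' v)) ?_
  have h1 : LinearMap.range (SS om v v) = Submodule.span K {v} := by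
    apply le_antisymm
    · rintro _ ⟨u, rfl⟩
      rw [SS_apply]
      exact Submodule.add_mem _ (Submodule.smul_mem _ _ (Submodule.mem_span_singleton_self v))
        (Submodule.smul_mem _ _ (Submodule.mem_span_singleton_self v))
    · rw [Submodule.span_singleton_le_iff_mem]
      refine ⟨(2 * om v w)⁻¹ • w, ?_⟩
      rw [map_smul, SS_apply, ← add_smul, smul_smul]
      have h2 : (2 * om v w)⁻¹ * (om v w + om v w) = 1 := by
        rw [← two_mul]
        exact inv_mul_cancel₀ (mul_ne_zero two_ne_zero hw)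
      rw [h2, one_smul]
  rw [rk, h1]
  exact finrank_span_singleton hv

section pairs

variable {x y : Module.End K X} (hx : x ∈ lieT R χ) (hy : y ∈ lieT R χ)
  (hxx : x * x = (1 / 4 : K) • 1) (hyy : y * y = (1 / 4 : K) • 1)

include hnd hωR hss hU hx hy hxx hyy in
/-- The square-zero elements for the eigenvalues of `x y + y x` on `U`. -/
theorem pair_elt {c : K} (hc : c * c ≠ 1 / 4) {d : ℕ}
    (hd : 2 * d = finrank K (Module.End.maxGenEigenspace (x * y + y * x) c ⊓ U :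
      Submodule K X)) :
    ∃ N ∈ resL R χ U, (∀ u : U, ((N u : U) : X) = yp x y u) ∧ ∃ n ∈ resL R χ U, n * n = 0 ∧
      rk n = d ∧ n ∈ Pool.Agent.W261.OT.Comm.Alg (rN (sl0 (resL R χ U))) N ∧
      (N = 0 → n = 0) := by
  have hsx := lieT_stable ω hnd hωR hss hU.2.1 hx
  have hsy := lieT_stable ω hnd hωR hss hU.2.1 hy
  obtain ⟨xU, hxU⟩ : ∃ xU : Module.End K U, xU = x.restrict hsx := ⟨_, rfl⟩
  obtain ⟨yU, hyU⟩ : ∃ yU : Module.End K U, yU = y.restrict hsy := ⟨_, rfl⟩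
  have hxu : ∀ u : U, ((xU u : U) : X) = x u := fun u => by rw [hxU]; rfl
  have hyu : ∀ u : U, ((yU u : U) : X) = y u := fun u => by rw [hyU]; rfl
  have hx2 : xU * xU = (1 / 4 : K) • 1 := sq_res hxu _ hxx
  have hy2 : yU * yU = (1 / 4 : K) • 1 := sq_res hyu _ hyy
  have hT : ∀ u : U, ((TT xU yU u : U) : X) = (x * y + y * x) u := by
    intro u
    unfold Pool.Agent.Y126.OT.TT
    rw [LinearMap.add_apply, LinearMap.add_apply, Submodule.coe_add, Module.End.mul_apply,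
      Module.End.mul_apply, Module.End.mul_apply, Module.End.mul_apply, hxu, hyu, hyu, hxu]
  have hm : finrank K ((TT xU yU).maxGenEigenspace c) = 2 * d := by
    rw [hd]
    exact mult_res hT c
  obtain ⟨p, hp⟩ := exists_pair_poly hx2 hy2 hc hm.symm
  have hxm : xU ∈ resL R χ U := ⟨x, hx, hxu⟩
  have hym : yU ∈ resL R χ U := ⟨y, hy, hyu⟩
  refine ⟨yp xU yU, yp_mem hx2 resL_br hxm hym, ?_, _,
    TT_poly_mem hx2 resL_br hxm hym hy2 p, poly_sq hx2 p, hp,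
    TT_poly_alg resL_br hxm hym hx2 hy2 p, fun h => by rw [h, mul_zero]⟩
  intro u
  unfold yp e1 e0
  simp only [Module.End.mul_apply, LinearMap.add_apply, LinearMap.sub_apply, LinearMap.smul_apply,
    Module.End.one_apply, Submodule.coe_add, Submodule.coe_sub, Submodule.coe_smul, hxu, hyu]

include hnd hωR hss hU hx hy hxx hyy in
theorem one_of_pair_gcd (hd : ∀ p : ℕ, p.Prime → ∃ c d, c * c ≠ 1 / 4 ∧
    2 * d = finrank K (Module.End.maxGenEigenspace (x * y + y * x) c ⊓ U : Submodule K X) ∧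
    ¬ p ∣ d) : ∃ e ∈ lieT R χ, e * e = 0 ∧ finrank K (U.map e) = 1 := by
  obtain ⟨Δ, hΔ, hUΔ⟩ := id hU.2.1
  have hbr : ∀ X' ∈ lieT R χ, ∀ Y ∈ lieT R χ, X' * Y - Y * X' ∈ lieT R χ :=
    fun _ h _ h' => lieT_bracket R χ h h'
  have hN := yp_mem hxx hbr hx hy
  have hN2 : yp x y * yp x y = 0 := by
    have h := poly_sq (y := y) hxx 1
    rwa [map_one, one_mul] at h
  have hN0 : U.map (yp x y) ≠ ⊥ := by
    intro h
    obtain ⟨c, d, hc, hd, h2⟩ := hd 2 Nat.prime_two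
    obtain ⟨N, -, hNu, n, -, -, hr, -, h3⟩ := pair_elt ω hnd hωR hss hU hx hy hxx hyy hc hd
    apply h2
    rw [← hr, h3 (LinearMap.ext fun u => Subtype.ext ?_), rk_eq_zero.2 rfl]
    · exact dvd_zero 2
    · rw [hNu]
      have h4 : yp x y u ∈ U.map (yp x y) := Submodule.mem_map_of_mem u.2
      rw [h, Submodule.mem_bot] at h4
      rw [h4]
      rfl
  obtain ⟨e, he, he2, Y, hY, hYe, hY2, hY0, hext⟩ := exists_ext ω hnd hωR hss hU hN hN2 hN0
  refine ⟨e, he, he2, ?_⟩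
  rw [← rk_res hYe]
  obtain ⟨c, d, hc, hcd, h2⟩ := hd 2 Nat.prime_two
  obtain ⟨N, hNm, hNu, -⟩ := pair_elt ω hnd hωR hss hU hx hy hxx hyy hc hcd
  have hNN : N * N = 0 := by
    have h3 := sq_res hNu 0 (by rw [hN2, zero_smul])
    rw [h3, zero_smul]
  refine extremal_rank_one_gen (resR R Δ U hUΔ) (sIrr_res hU Δ hΔ hUΔ) resL_br (resL_conj Δ hUΔ)
    (N := N) hNm hNN ?_ hY hY2 hY0 hext
  intro p hp
  obtain ⟨c', d', hc', hcd', h2'⟩ := hd p hp
  obtain ⟨N', -, hNu', n, hn, hn2, hr, hnA, -⟩ := pair_elt ω hnd hωR hss hU hx hy hxx hyy hc' hcd'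
  have hNe : N' = N := LinearMap.ext fun u => Subtype.ext (by rw [hNu, hNu'])
  rw [hNe] at hnA
  exact ⟨n, hn, hn2, hnA, by rw [hr]; exact h2'⟩

include hnd hωR hss hU hx hy hxx hyy in
theorem one_of_pair_alt (halt : AltDual R χ U) {c : K} (hc : c * c ≠ 1 / 4) {d : ℕ}
    (hd : 2 * d = finrank K (Module.End.maxGenEigenspace (x * y + y * x) c ⊓ U :
      Submodule K X)) (hd0 : d ≠ 0)
    (hd2 : d = 2 ∨ (Odd d ∧ WeakHodgeGenerate R χ) ∨ Nat.Coprime d (finrank K U)) :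
    ∃ e ∈ lieT R χ, e * e = 0 ∧ finrank K (U.map e) = 1 := by
  have hbr : ∀ X' ∈ lieT R χ, ∀ Y ∈ lieT R χ, X' * Y - Y * X' ∈ lieT R χ :=
    fun _ h _ h' => lieT_bracket R χ h h'
  have hN := yp_mem hxx hbr hx hy
  have hN2 : yp x y * yp x y = 0 := by
    have h := poly_sq (y := y) hxx 1
    rwa [map_one, one_mul] at h
  obtain ⟨N, -, hNu, n, hn, hn2, hr, -, h3⟩ := pair_elt ω hnd hωR hss hU hx hy hxx hyy hc hd
  have hN0 : U.map (yp x y) ≠ ⊥ := by
    intro h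
    apply hd0
    rw [← hr, h3 (LinearMap.ext fun u => Subtype.ext ?_), rk_eq_zero.2 rfl]
    rw [hNu]
    have h4 : yp x y u ∈ U.map (yp x y) := Submodule.mem_map_of_mem u.2
    rw [h, Submodule.mem_bot] at h4
    rw [h4]
    rfl
  exact one_of_alt_gen ω hnd hωR hss hU halt hN hN2 hN0 hn hn2 hr hd0
    (hd2.imp_right (Or.imp_right fun h => ⟨h, x, hx, hxx⟩))

end pairs

end

end Pool.Agent.Y126.Toric
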