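import Mathlib
import Pool.Agent.Y126.Toric.One
import Pool.Agent.Y126.AV.Wedge
import Pool.Agent.TH118.WC.Final

/-!
# Tate classes on the powers of abelian varieties with quadratic unipotent elements
-/

set_option linter.unusedSectionVars false

namespace Pool.Agent.Y126.Toric

open Module Pool.Agent.H204R3.SP Pool.Agent.H204R3.GP Pool.Agent.W522.U Pool.Agent.W529.Ta
open Pool.Agent.W528.Odd Pool.Agent.Y126.OT Pool.Agent.TH118.CR Pool.Agent.TH118.WC
open Pool.Agent.W528.Tor (AltDual)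

noncomputable section

variable {K : Type} [Field K] [CharZero K] {X : Type} [AddCommGroup X] [Module K X]
  [FiniteDimensional K X] {Γ : Type} [Group Γ] {R : Representation K Γ X} {χ : Γ →* K}

theorem altDual_du {U : Submodule K X} (h : AltDual R χ U) : Du R χ U U := by
  obtain ⟨Δ, hΔ, B, h0, -, h⟩ := h
  exact ⟨Δ, hΔ, B, h0, h⟩

/-- An alternating pairing on a line is zero. -/
theorem altDual_two_le {U : Submodule K X} (h : AltDual R χ U) : 2 ≤ finrank K U := by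
  obtain ⟨Δ, hΔ, B, ⟨u, hu, v, hv, h0⟩, halt, -⟩ := h
  by_contra hcon
  have h1 : finrank K U ≤ 1 := by omega
  obtain ⟨w, hw⟩ := finrank_le_one_iff.1 h1
  obtain ⟨a, ha⟩ := hw ⟨u, hu⟩
  obtain ⟨b, hb⟩ := hw ⟨v, hv⟩
  apply h0
  have h2 : u = a • (w : X) := congrArg Subtype.val ha.symm
  have h3 : v = b • (w : X) := congrArg Subtype.val hb.symm
  rw [h2, h3, map_smul, map_smul, LinearMap.smul_apply, halt _ w.2, smul_zero, smul_zero]

/-- If there are no Weil families there are no determinants. -/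
theorem pt_of_noWeil (hno : ∀ (Q : Type) [Fintype Q] [Nonempty Q] (L : Q → Submodule K X),
    ¬IsWeilFamily R χ L) {m : ℕ}
    {φ : MultilinearMap K (fun _ : Fin m × Fin 2 => X) K}
    (hφ : φ ∈ Submodule.span K (DetProd R χ m)) : φ ∈ Submodule.span K (PT R χ m) := by
  classical
  refine Submodule.span_mono ?_ hφ
  rintro φ ⟨P, Q, _, _, U, f, e, B, C, hB, -, hU, hDu, hdet, hφ⟩
  have hQ : IsEmpty Q := by
    by_contra hne
    rw [not_isEmpty_iff] at hne
    exact hno Q U ⟨hU, hDu, hdet⟩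
  have hcard : Fintype.card P = m := by
    have h1 := Fintype.card_congr e
    have h2 : Fintype.card (Σ q, Fin (finrank K (U q))) = 0 := Fintype.card_eq_zero
    rw [Fintype.card_sum, h2, Fintype.card_prod, Fintype.card_prod, Fintype.card_fin,
      Fintype.card_fin] at h1
    omega
  let i : P ≃ Fin m := Fintype.equivFinOfCardEq hcard
  let e' : Fin m × Fin 2 ≃ Fin m × Fin 2 :=
    ((Equiv.prodCongr i.symm (Equiv.refl _)).trans (Equiv.sumEmpty _ _).symm).trans e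
  refine ⟨e', fun l => B (i.symm l), fun l => hB _, ?_⟩
  ext v
  have h3 : (∏ q, Matrix.det (Matrix.of fun s s' => C q s (v (e (Sum.inr ⟨q, s⟩))) (f q s' : X))) = 1 :=
    Fintype.prod_empty _
  rw [hφ, mmG_apply, h3, mul_one]
  rw [← Equiv.prod_comp i]
  refine Finset.prod_congr rfl fun p _ => ?_
  change _ = B (i.symm (i p)) (v (e (Sum.inl (i.symm (i p), 0)))) (v (e (Sum.inl (i.symm (i p), 1))))
  rw [Equiv.symm_apply_apply]

/-- If all strongly irreducible subspaces are self-dual there are no determinants. -/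
theorem pt_of_det (hall : ∀ U, SI R U → Du R χ U U) {m : ℕ}
    {φ : MultilinearMap K (fun _ : Fin m × Fin 2 => X) K}
    (hφ : φ ∈ Submodule.span K (DetProd R χ m)) : φ ∈ Submodule.span K (PT R χ m) := by
  refine pt_of_noWeil (fun Q _ hQ L hL => ?_) hφ
  obtain ⟨q⟩ := hQ
  exact hL.2.1 q q (hall _ (hL.1 q))

/-- All strongly irreducible subspaces have alternating pairings, and on each of them a quadratic
unipotent element has a defect that is odd or two. -/
theorem tate_alt {ℓ : ℕ} [Fact ℓ.Prime] {V Γ : Type} [AddCommGroup V]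
    [Module ℚ_[ℓ] V] [FiniteDimensional ℚ_[ℓ] V] [Group Γ]
    {ρ : Representation ℚ_[ℓ] Γ V} {χ : Γ →* ℚ_[ℓ]} {ω : V →ₗ[ℚ_[ℓ]] V →ₗ[ℚ_[ℓ]] ℚ_[ℓ]}
    (hV : Pool.Agent.Y126.AV.IsTateModule ρ χ ω)
    (hU : ∀ U, SI (bcr ρ (AlgebraicClosure ℚ_[ℓ])) U →
      AltDual (bcr ρ (AlgebraicClosure ℚ_[ℓ])) (bcc χ (AlgebraicClosure ℚ_[ℓ])) U ∧
      ∃ γ : Γ, (ρ γ - 1) * (ρ γ - 1) = 0 ∧ ∃ d, IsDefect (bcr ρ (AlgebraicClosure ℚ_[ℓ])) U γ d ∧
        (d = 2 ∨ (Odd d ∧ WeakHodgeGenerate (bcr ρ (AlgebraicClosure ℚ_[ℓ]))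
          (bcc χ (AlgebraicClosure ℚ_[ℓ]))))) :
    TateGeneratedInDegreeTwo ρ χ := by
  have hl := left_nondeg ω hV.alternating hV.nondegenerate
  have hdu : ∀ U, SI (bcr ρ (AlgebraicClosure ℚ_[ℓ])) U →
      Du (bcr ρ (AlgebraicClosure ℚ_[ℓ])) (bcc χ (AlgebraicClosure ℚ_[ℓ])) U U :=
    fun U h => altDual_du (hU U h).1
  refine generated_of_ext ρ χ (AlgebraicClosure ℚ_[ℓ]) fun m φ hφ => pt_of_det hdu ?_
  refine main_det (bcb (AlgebraicClosure ℚ_[ℓ]) ω)
    (fun u hu => bcb_nondeg_left ω hV.nondegenerate hl u hu)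
    (bcb_inv (Ω := AlgebraicClosure ℚ_[ℓ]) ρ χ ω hV.equivariant)
    (hasProj_bcr ρ _ hV.semisimple) ?_ ?_ ?_ φ hφ
  · intro U hUs _
    obtain ⟨halt, γ, hγ, d, hd, hd2⟩ := hU U hUs
    refine ⟨γ, ?_, Or.inr ⟨halt, d, hd, hd2⟩⟩
    have h1 : bcr ρ (AlgebraicClosure ℚ_[ℓ]) γ - 1 =
        (ρ γ - 1 : Module.End ℚ_[ℓ] V).baseChange (AlgebraicClosure ℚ_[ℓ]) := by
      rw [LinearMap.baseChange_sub]
      congr 1
      exact (LinearMap.baseChange_id).symm
    rw [h1, ← LinearMap.baseChange_mul, hγ, LinearMap.baseChange_zero]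
  · intro U hUs h1
    have h2 := altDual_two_le (hU U hUs).1
    omega
  · intro U U' hUs _ _ hnot
    exact absurd (hdu U hUs) hnot

end

end Pool.Agent.Y126.Toric
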